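import Pool.Agent.Lib.MP_0830d8_co.Main

open Finset Pool.Agent.Lib.MP_0830d8_co

/-- Asymptotic antimagic theorem: every connected graph on n vertices is o(n)-antimagic. -/
theorem Pool.Agent.Results.MP_0830d8_co.Asymptotic.result (ε : ℝ) (hε : 0 < ε) :
    ∃ n₀ : ℕ, ∀ n : ℕ, n₀ ≤ n → ∀ (G : SimpleGraph (Fin n)) [DecidableRel G.Adj], G.Connected →
      ∃ f : Sym2 (Fin n) → ℕ, Set.InjOn f G.edgeSet ∧
        Set.MapsTo f G.edgeSet (Set.Icc 1 (G.edgeSet.ncard + ⌊ε * n⌋₊)) ∧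
        Function.Injective (fun v : Fin n => ∑ w ∈ G.neighborFinset v, f s(v, w)) := by
  obtain ⟨g, hg⟩ := exists_nat_ge (max 5 (110 / ε))
  have hg5 : (5 : ℝ) ≤ g := (le_max_left _ _).trans hg
  have hgε : 110 ≤ g * ε := (div_le_iff₀ hε).mp ((le_max_right _ _).trans hg)
  have hg0 : (0 : ℝ) < g := by linarith
  have hg5' : 5 ≤ g := by exact_mod_cast hg5
  obtain ⟨γ, hγ, H⟩ := core (g := g) (C := g ^ 3) hg5' (by positivity)
    (ε := 1 / (g : ℝ) ^ 3) (by positivity)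
  obtain ⟨K, hK⟩ := exists_nat_gt (2 * g / γ)
  have hK0 : (0 : ℝ) < K := lt_trans (by positivity) hK
  have hK0' : 0 < K := by exact_mod_cast hK0
  rw [div_lt_iff₀ hγ] at hK
  obtain ⟨N, hN⟩ := exists_nat_ge ((2 * K + 9 + 13 * (g * (g + 1))) * 2 / ε)
  rw [div_le_iff₀ hε] at hN
  refine ⟨3 + N + K * ((g ^ 3 + 1) ^ g ^ 3 + 2), fun n hn G _ hG => ?_⟩
  have d1 : ∀ k : ℕ, ((n / k : ℕ) : ℝ) ≤ n / k := fun k => Nat.cast_div_le
  have d2 : ∀ k : ℕ, 0 < k → (n : ℝ) / k ≤ (n / k + 1 : ℕ) := fun k hk => by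
    rw [div_le_iff₀ (by exact_mod_cast hk), mul_comm]
    exact_mod_cast (Nat.lt_mul_div_succ n hk).le
  obtain ⟨f, f1, f2, f3⟩ := H (Fin n) G hG (by rw [Fintype.card_fin]; omega) (n / K + 1)
    (n / g ^ 3 + 1) (Nat.succ_pos _) (by
      rw [Fintype.card_fin]
      set C' := (g ^ 3 + 1) ^ g ^ 3
      have h1 : ((C' + 2 : ℕ) : ℝ) ≤ n / K := by
        rw [le_div_iff₀ hK0, mul_comm]
        exact_mod_cast (show K * (C' + 2) ≤ n by omega)
      have h2 : 2 * ((n : ℝ) / K) ≤ γ * (n / g) := by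
        rw [← mul_div_assoc, ← mul_div_assoc, div_le_div_iff₀ hK0 hg0]
        have : (0 : ℝ) ≤ n := by positivity
        nlinarith
      have h3 := mul_le_mul_of_nonneg_left (d2 g (by omega)) hγ.le
      have h4 := d1 K
      push_cast at h1 h3 h4 ⊢
      linarith) (by
      rw [Fintype.card_fin, one_div, inv_mul_eq_div]
      exact_mod_cast d2 (g ^ 3) (by positivity))
  rw [Fintype.card_fin] at f2
  refine ⟨f, by simpa using f1, fun e he => ?_, by simpa only [sum_nbr] using f3⟩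
  obtain ⟨h1, h2⟩ := mem_Icc.mp (f2 e (SimpleGraph.mem_edgeFinset.mpr he))
  refine ⟨h1, h2.trans ?_⟩
  rw [← Set.ncard_coe_finset, SimpleGraph.coe_edgeFinset]
  refine Nat.add_le_add_left (Nat.le_floor ?_) _
  have h3 : n / (n / K + 1) ≤ K :=
    Nat.div_le_of_le_mul (by rw [mul_comm]; exact (Nat.lt_mul_div_succ n hK0').le)
  have h4 : ((n / (n / K + 1) : ℕ) : ℝ) ≤ K := by exact_mod_cast h3
  have h5 := d1 g
  have h6 : ((n / g ^ 3 : ℕ) : ℝ) * (g * (g + 1)) ≤ 2 * (n / g) := by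
    refine (mul_le_mul_of_nonneg_right (d1 _) (by positivity)).trans ?_
    rw [Nat.cast_pow, show (n : ℝ) / g ^ 3 * (g * (g + 1)) = n / g * ((g + 1) / g) by field_simp,
      mul_comm]
    refine mul_le_mul_of_nonneg_right ?_ (by positivity)
    rw [div_le_iff₀ hg0]; linarith
  have h7 : 110 * ((n : ℝ) / g) ≤ ε * n := by
    rw [← mul_div_assoc, div_le_iff₀ hg0]
    have : (0 : ℝ) ≤ n := by positivity
    nlinarith
  have h8 : (N : ℝ) * ε ≤ ε * n := by
    rw [mul_comm]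
    exact mul_le_mul_of_nonneg_left (by exact_mod_cast (show N ≤ n by omega)) hε.le
  generalize n / (n / K + 1) = a at *
  generalize n / g ^ 3 = b at *
  generalize n / g = c at *
  push_cast
  linarith
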