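import Mathlib

-- part Pool.Agent.Lib.MP_0830d8_co.Ex.Par
section

/-!
Choice of numerical parameters.
-/

namespace Pool.Agent.Lib.MP_0830d8_co.Ex

lemma params1 (Q C : ℕ) (hQ : 0 < Q) {ε γ0 : ℝ} (hε : 0 < ε) (hγ0 : 0 < γ0) :
    ∃ κ : ℝ, 0 < κ ∧ ∃ γ : ℝ, 0 < γ ∧ ∃ N0 : ℕ, ∀ N : ℕ, N0 ≤ N → ∃ β w : ℕ, 0 < β ∧ 0 < w ∧
      Q * (β + w) + 1 ≤ N ∧ 2 * ((N : ℝ) / Q + κ * N) * (w + 1) ≤ (1 + ε) * (2 * w * β) ∧
      4 * (N : ℝ) * C + 6 * (γ * N) * w ≤ γ0 * β * w ∧ 1 ≤ γ0 * w ∧ 1 ≤ γ0 * β := by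
  set η := min ε 1 / 4 with hη
  have hη0 : 0 < η := by positivity
  have hη1 : η ≤ 1 / 4 := by have := min_le_right ε 1; linarith
  have hη2 : 4 * η ≤ ε := by have := min_le_left ε 1; linarith
  clear_value η
  have hQ0 : (0 : ℝ) < Q := by exact_mod_cast hQ
  have hQ1 : (1 : ℝ) ≤ Q := by exact_mod_cast hQ
  obtain ⟨N0, hN0⟩ := exists_nat_ge
    (Q * (12 + 4 / η ^ 2 + 6 / η + 16 * Q * C / (η * γ0) + 1 / (η * γ0) + 2 / γ0))
  refine ⟨η / (2 * Q), by positivity, γ0 / (24 * Q), by positivity, N0 + 1, fun N hN => ?_⟩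
  set M : ℝ := N / Q with hM
  have hNM : (N : ℝ) = Q * M := by rw [hM]; field_simp
  have hM0 : 12 + 4 / η ^ 2 + 6 / η + 16 * Q * C / (η * γ0) + 1 / (η * γ0) + 2 / γ0 ≤ M := by
    rw [hM, le_div_iff₀ hQ0, mul_comm]
    exact hN0.trans (by exact_mod_cast (by omega))
  have p1 : 0 ≤ 4 / η ^ 2 := by positivity
  have p2 : 0 ≤ 6 / η := by positivity
  have p3 : 0 ≤ 16 * Q * C / (η * γ0) := by positivity
  have p4 : 0 ≤ 1 / (η * γ0) := by positivity
  have p5 : 0 ≤ 2 / γ0 := by positivity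
  have m0 : 12 ≤ M := by linarith
  have m1 : 4 ≤ M * η ^ 2 := (div_le_iff₀ (by positivity)).mp (by linarith)
  have m2 : 6 ≤ M * η := (div_le_iff₀ (by positivity)).mp (by linarith)
  have m3 : 16 * Q * C ≤ M * (η * γ0) := (div_le_iff₀ (by positivity)).mp (by linarith)
  have m4 : 1 ≤ M * (η * γ0) := (div_le_iff₀ (by positivity)).mp (by linarith)
  have m5 : 2 ≤ M * γ0 := (div_le_iff₀ (by positivity)).mp (by linarith)
  clear hM0 p1 p2 p3 p4 p5 hN0 hη
  clear_value M
  have hM1 : 0 ≤ M := by linarith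
  have m6 : η * M ≤ M / 4 := by
    have := mul_le_mul_of_nonneg_right hη1 hM1
    linarith
  set w := ⌊η * M⌋₊ + 1 with hw
  have w1 : η * M ≤ w := by rw [hw]; push_cast; exact (Nat.lt_floor_add_one _).le
  have w2 : (w : ℝ) ≤ η * M + 1 := by
    rw [hw]; push_cast; linarith [Nat.floor_le (show 0 ≤ η * M by positivity)]
  set b := (N - 1) / Q with hb
  have b1 : M - 2 ≤ b := by
    have h1 : N - 1 < Q * (b + 1) := Nat.lt_mul_div_succ _ hQ
    have h2 : (N : ℝ) ≤ Q * (b + 1) := by exact_mod_cast (show N ≤ Q * (b + 1) by omega)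
    rw [hNM] at h2
    have := le_of_mul_le_mul_left h2 hQ0
    linarith
  have b2 : Q * b ≤ N - 1 := Nat.mul_div_le _ _
  have b3 : w < b := by
    have : (w : ℝ) < b := by linarith
    exact_mod_cast this
  have hβ : (1 - η) * M - 3 ≤ ((b - w : ℕ) : ℝ) := by
    rw [Nat.cast_sub b3.le]; linarith
  refine ⟨b - w, w, by omega, by omega, by rw [Nat.sub_add_cancel b3.le]; omega, ?_⟩
  set β : ℝ := ((b - w : ℕ) : ℝ)
  have hβ2 : M / 2 ≤ β := by linarith
  have hw0 : (0 : ℝ) < w := by linarith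
  refine ⟨?_, ?_, by linarith [mul_le_mul_of_nonneg_left w1 hγ0.le],
    by linarith [mul_le_mul_of_nonneg_left hβ2 hγ0.le]⟩
  · have a1 : η / (2 * Q) * N = η / 2 * M := by rw [hNM]; field_simp
    have a2 : (w : ℝ) + 1 ≤ (1 + η / 4) * w := by
      linarith [mul_le_mul_of_nonneg_left w1 hη0.le]
    have a3 : (M + η / 2 * M) * (1 + η / 4) ≤ (1 + 4 * η) * ((1 - η) * M - 3) := by
      linarith [mul_nonneg (mul_nonneg hη0.le hM1) (show 0 ≤ 1 / 4 - η by linarith)]
    have a4 : (1 + 4 * η) * ((1 - η) * M - 3) ≤ (1 + ε) * β :=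
      mul_le_mul (by linarith) hβ (by linarith) (by linarith)
    rw [a1]
    calc 2 * (M + η / 2 * M) * (w + 1) ≤ 2 * (M + η / 2 * M) * ((1 + η / 4) * w) := by
          gcongr
      _ = 2 * w * ((M + η / 2 * M) * (1 + η / 4)) := by ring
      _ ≤ 2 * w * ((1 + ε) * β) := mul_le_mul_of_nonneg_left (a3.trans a4) (by positivity)
      _ = _ := by ring
  · have a1 : γ0 / (24 * Q) * N = γ0 / 24 * M := by rw [hNM]; field_simp
    rw [a1, hNM]
    have a2 : M / 2 * (η * M) ≤ β * w := mul_le_mul hβ2 w1 (by positivity) (by linarith)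
    have a3 : M / 2 * w ≤ β * w := by gcongr
    have a4 : 16 * Q * C * M ≤ M * (η * γ0) * M := by gcongr
    linarith [mul_le_mul_of_nonneg_left a2 hγ0.le, mul_le_mul_of_nonneg_left a3 hγ0.le]

end Pool.Agent.Lib.MP_0830d8_co.Ex
end

-- part Pool.Agent.Lib.MP_0830d8_co.Ex.Early
section

/-!
Greedy labelling with pools.
-/

namespace Pool.Agent.Lib.MP_0830d8_co.Ex

open Finset

section
variable {ι V J : Type} [DecidableEq ι] [Fintype V] [DecidableEq V] [DecidableEq J]

/-- the invariant of the greedy labelling -/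
structure EInv (L : Finset ℤ) (Φ : Finset ι) (ep : ι → Finset V) (ω0 : V → ℤ) (base : ι → ℤ)
    (cls : ℤ → J) (c : ι → J) (μ : ℕ) (H' : Finset ι) (α : ι → ℤ) : Prop where
  inj : Set.InjOn α H'
  mem : ∀ e ∈ H', α e ∈ L
  cl : ∀ e ∈ H', cls (α e) = c e
  mult : ∀ z, z ≠ 0 → (univ.filter fun v => ω0 v + ∑ e ∈ H' with v ∈ ep e, α e = z).card ≤ μ
  base : ∀ e ∈ H', ∀ e' ∈ H', e ∈ Φ → e' ∈ Φ → base e + α e = base e' + α e' → e = e'

omit [DecidableEq V] in
lemma heavy_card (s : V → ℤ) (m : ℕ) (hm : 0 < m) : ∃ Z : Finset ℤ, m * Z.card ≤ Fintype.card V ∧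
    ∀ z, z ∉ Z → (univ.filter fun v => s v = z).card < m := by
  refine ⟨(univ.image s).filter fun z => m ≤ (univ.filter fun v => s v = z).card, ?_,
    fun z hz => ?_⟩
  · rw [← Finset.card_univ, Finset.card_eq_sum_card_image s, mul_comm, ← smul_eq_mul]
    exact le_trans (Finset.card_nsmul_le_sum _ _ _ fun z hz => (mem_filter.1 hz).2)
      (Finset.sum_le_sum_of_subset (filter_subset _ _))
  · by_contra h
    obtain ⟨v, hv⟩ := Finset.card_pos.1 (lt_of_lt_of_le hm (not_lt.1 h))
    exact hz (mem_filter.2 ⟨mem_image.2 ⟨v, mem_univ _, (mem_filter.1 hv).2⟩, not_lt.1 h⟩)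

lemma EInv.step {L : Finset ℤ} {Φ : Finset ι} {ep : ι → Finset V} {ω0 : V → ℤ} {base : ι → ℤ}
    {cls : ℤ → J} {c : ι → J} {μ K : ℕ} {H' : Finset ι} {α : ι → ℤ}
    (h : EInv L Φ ep ω0 base cls c μ H' α) (hμ : 2 ≤ μ)
    (hK : 2 * Fintype.card V ≤ (μ - 1) * K) {e : ι} (he : e ∉ H') (hep : (ep e).card ≤ 2)
    (hp : (H'.filter fun e' => c e' = c e).card + K + (if e ∈ Φ then Φ.card else 0) <
      (L.filter fun z => cls z = c e).card) :
    ∃ α', EInv L Φ ep ω0 base cls c μ (insert e H') α' := by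
  set s : V → ℤ := fun v => ω0 v + ∑ e ∈ H' with v ∈ ep e, α e with hs
  obtain ⟨Z, hZ1, hZ2⟩ := heavy_card s (μ - 1) (by omega)
  have hZ3 : 2 * Z.card ≤ K :=
    Nat.le_of_mul_le_mul_left (c := μ - 1) (by nlinarith) (by omega)
  obtain ⟨a, ha, hb⟩ := Finset.exists_mem_notMem_of_card_lt_card
    (s := (H'.filter fun e' => c e' = c e).image α ∪ (ep e ×ˢ Z).image (fun p => p.2 - s p.1) ∪
      (if e ∈ Φ then Φ.image fun e' => base e' + α e' - base e else ∅))
    (lt_of_le_of_lt (by
      refine (Finset.card_union_le _ _).trans (Nat.add_le_add ((Finset.card_union_le _ _).trans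
        (Nat.add_le_add Finset.card_image_le (Finset.card_image_le.trans ?_))) ?_)
      · rw [Finset.card_product]
        exact (Nat.mul_le_mul_right _ hep).trans hZ3
      · split_ifs
        · exact Finset.card_image_le
        · simp) hp)
  rw [mem_filter] at ha
  simp only [mem_union, not_or, mem_image, not_exists, not_and] at hb
  obtain ⟨⟨hb1, hb2⟩, hb3⟩ := hb
  have hu : ∀ e' ∈ H', Function.update α e a e' = α e' := fun e' he' =>
    Function.update_of_ne (fun h' : e' = e => he (h' ▸ he')) _ _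
  have hne : ∀ e' ∈ H', α e' ≠ a := fun e' he' h' =>
    hb1 e' (mem_filter.2 ⟨he', by rw [← h.cl e' he', h', ha.2]⟩) h'
  have hbase : ∀ e' ∈ Φ, e ∈ Φ → base e + a ≠ base e' + α e' := fun e' he' heΦ h' => by
    rw [if_pos heΦ] at hb3
    exact hb3 (mem_image.2 ⟨e', he', by linarith⟩)
  refine ⟨Function.update α e a, ?_, ?_, ?_, fun z hz => ?_, ?_⟩
  · intro x hx y hy hxy
    rcases mem_insert.1 hx with hx1 | hx1 <;> rcases mem_insert.1 hy with hy1 | hy1
    · rw [hx1, hy1]
    · rw [hx1, Function.update_self, hu y hy1] at hxy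
      exact absurd hxy.symm (hne y hy1)
    · rw [hy1, Function.update_self, hu x hx1] at hxy
      exact absurd hxy (hne x hx1)
    · rw [hu x hx1, hu y hy1] at hxy
      exact h.inj hx1 hy1 hxy
  · intro x hx
    rcases mem_insert.1 hx with rfl | hx
    · rw [Function.update_self]; exact ha.1
    · rw [hu x hx]; exact h.mem x hx
  · intro x hx
    rcases mem_insert.1 hx with rfl | hx
    · rw [Function.update_self]; exact ha.2
    · rw [hu x hx]; exact h.cl x hx
  · have key : ∀ v, ω0 v + ∑ e' ∈ insert e H' with v ∈ ep e', Function.update α e a e' =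
        s v + if v ∈ ep e then a else 0 := by
      intro v
      rw [Finset.sum_filter, Finset.sum_insert he, Function.update_self, ← Finset.sum_filter,
        Finset.sum_congr rfl fun e' he' => hu e' (mem_filter.1 he').1, hs]
      ring
    simp only [key]
    by_cases hzZ : z ∈ Z
    · refine le_trans (Finset.card_le_card fun v hv => ?_) (h.mult z hz)
      rw [mem_filter] at hv ⊢
      refine ⟨hv.1, ?_⟩
      by_cases hv' : v ∈ ep e
      · rw [if_pos hv'] at hv
        exact absurd (by linarith [hv.2]) (hb2 (v, z) (mem_product.2 ⟨hv', hzZ⟩))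
      · simpa [hv'] using hv.2
    · have := hZ2 z hzZ
      refine le_trans (Finset.card_le_card (t := (univ.filter fun v => s v = z) ∪ ep e)
        fun v hv => ?_) ((Finset.card_union_le _ _).trans (by omega))
      by_cases hv' : v ∈ ep e
      · exact mem_union_right _ hv'
      · exact mem_union_left _ (by simpa [hv'] using hv)
  · intro x hx y hy hx' hy' hxy
    rcases mem_insert.1 hx with hx1 | hx1 <;> rcases mem_insert.1 hy with hy1 | hy1
    · rw [hx1, hy1]
    · rw [hx1, Function.update_self, hu y hy1] at hxy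
      exact absurd hxy (hbase y hy' (hx1 ▸ hx'))
    · rw [hy1, Function.update_self, hu x hx1] at hxy
      exact absurd hxy.symm (hbase x hx' (hy1 ▸ hy'))
    · rw [hu x hx1, hu y hy1] at hxy
      exact h.base x hx1 y hy1 hx' hy' hxy

omit [Fintype V] [DecidableEq V] [DecidableEq J] in
lemma extend_bij_early (H H' : Finset ι) (hH : H' ⊆ H) (L : Finset ℤ) (hL : L.card = H.card)
    (α : ι → ℤ) (hinj : Set.InjOn α H') (hmap : ∀ e ∈ H', α e ∈ L) :
    ∃ α' : ι → ℤ, Set.BijOn α' H L ∧ ∀ e ∈ H', α' e = α e := by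
  have h1 : H'.image α ⊆ L := fun z hz => by
    obtain ⟨e, he, rfl⟩ := mem_image.1 hz
    exact hmap e he
  have h2 : (H \ H').card = (L \ H'.image α).card := by
    rw [Finset.card_sdiff_of_subset hH, Finset.card_sdiff_of_subset h1,
      Finset.card_image_of_injOn hinj, hL]
  let g := Finset.equivOfCardEq h2
  let α' : ι → ℤ := fun e => if h : e ∈ H \ H' then g ⟨e, h⟩ else α e
  have h3 : ∀ e ∈ H', α' e = α e := fun e he => dif_neg fun h => (mem_sdiff.1 h).2 he
  have h4 : ∀ e (h : e ∈ H \ H'), α' e = g ⟨e, h⟩ := fun e h => dif_pos h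
  have h5 : Set.MapsTo α' H L := fun e he => by
    by_cases h : e ∈ H'
    · rw [h3 e h]; exact hmap e h
    · rw [h4 e (mem_sdiff.2 ⟨he, h⟩)]; exact (mem_sdiff.1 (g _).2).1
  have h6 : Set.InjOn α' H := fun x hx y hy hxy => by
    by_cases h : x ∈ H' <;> by_cases h' : y ∈ H'
    · rw [h3 x h, h3 y h'] at hxy
      exact hinj h h' hxy
    · rw [h3 x h, h4 y (mem_sdiff.2 ⟨hy, h'⟩)] at hxy
      exact absurd (hxy ▸ mem_image_of_mem α h) (mem_sdiff.1 (g _).2).2
    · rw [h3 y h', h4 x (mem_sdiff.2 ⟨hx, h⟩)] at hxy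
      exact absurd (hxy ▸ mem_image_of_mem α h') (mem_sdiff.1 (g _).2).2
    · rw [h4 x (mem_sdiff.2 ⟨hx, h⟩), h4 y (mem_sdiff.2 ⟨hy, h'⟩)] at hxy
      exact congrArg Subtype.val (g.injective (Subtype.ext hxy))
  exact ⟨α', ⟨h5, h6, Finset.surjOn_of_injOn_of_card_le _ h5 h6 hL.le⟩, h3⟩

end

theorem early {ι V J : Type} [DecidableEq ι] [Fintype V] [DecidableEq V] [Fintype J]
    [DecidableEq J] (H Φ : Finset ι) (hΦ : Φ ⊆ H) (ep : ι → Finset V)
    (hep : ∀ e ∈ H, (ep e).card ≤ 2) (ω0 : V → ℤ) (base : ι → ℤ) (a0 : ℤ) (cls : ℤ → J)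
    (c : ι → J) (μ K err : ℕ) (hμ : 2 ≤ μ) (hK : 2 * Fintype.card V ≤ (μ - 1) * K)
    (h0 : ∀ z, z ≠ 0 → (univ.filter fun v => ω0 v = z).card ≤ μ)
    (hpool : ∀ j, (H.filter fun e => c e = j).card ≤
      ((Ioc a0 (a0 + H.card)).filter fun z => cls z = j).card + err)
    (hΦpool : ∀ e ∈ Φ, 2 * Φ.card + K <
      ((Ioc a0 (a0 + H.card)).filter fun z => cls z = c e).card) :
    ∃ (α : ι → ℤ) (X : Finset ι), Set.BijOn α H (Set.Ioc a0 (a0 + H.card)) ∧ X ⊆ H \ Φ ∧
      X.card ≤ Fintype.card J * (err + K) ∧ (∀ e ∈ H \ X, cls (α e) = c e) ∧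
      (∀ z, z ≠ 0 →
        (univ.filter fun v => ω0 v + ∑ e ∈ H with v ∈ ep e, α e = z).card ≤ μ + 2 * X.card) ∧
      Set.InjOn (fun e => base e + α e) Φ := by
  classical
  set L := Ioc a0 (a0 + H.card) with hL
  have ph1 : ∀ S ⊆ Φ, ∃ α, EInv L Φ ep ω0 base cls c μ S α := by
    intro S
    induction S using Finset.induction_on with
    | empty => exact fun _ => ⟨0, by simp, by simp, by simp, by simpa using h0, by simp⟩
    | insert e S he ih =>
      intro hS
      obtain ⟨α, hα⟩ := ih ((subset_insert _ _).trans hS)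
      have he' := hS (mem_insert_self _ _)
      refine hα.step hμ hK he (hep e (hΦ he')) ?_
      have h1 := hΦpool e he'
      have h2 : (S.filter fun e' => c e' = c e).card ≤ Φ.card :=
        Finset.card_le_card ((filter_subset _ _).trans ((subset_insert _ _).trans hS))
      rw [if_pos he']
      omega
  obtain ⟨H', h1, h2⟩ := Finset.exists_max_image
    (H.powerset.filter fun S => Φ ⊆ S ∧ ∃ α, EInv L Φ ep ω0 base cls c μ S α) Finset.card
    ⟨Φ, mem_filter.2 ⟨mem_powerset.2 hΦ, subset_rfl, ph1 Φ subset_rfl⟩⟩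
  obtain ⟨h3, h4, α, hα⟩ := mem_filter.1 h1
  rw [mem_powerset] at h3
  obtain ⟨α', h5, h6⟩ := extend_bij_early H H' h3 L (by simp [hL]) α hα.inj hα.mem
  have h7 : ∀ j, ((H \ H').filter fun e => c e = j).card ≤ err + K := by
    intro j
    rcases ((H \ H').filter fun e => c e = j).eq_empty_or_nonempty with h | ⟨e, he⟩
    · simp [h]
    obtain ⟨he1, rfl⟩ := mem_filter.1 he
    rw [mem_sdiff] at he1
    have h8 : (L.filter fun z => cls z = c e).card ≤ (H'.filter fun e' => c e' = c e).card + K := by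
      by_contra h
      have h9 := h2 (insert e H') (mem_filter.2 ⟨mem_powerset.2 (insert_subset he1.1 h3),
        h4.trans (subset_insert _ _), hα.step hμ hK he1.2 (hep e he1.1) (by
          rw [if_neg fun h' => he1.2 (h4 h')]; omega)⟩)
      rw [Finset.card_insert_of_notMem he1.2] at h9
      omega
    have h9 := hpool (c e)
    rw [show ((H \ H').filter fun e' => c e' = c e) = (H.filter fun e' => c e' = c e) \
      H'.filter fun e' => c e' = c e by ext; simp; tauto,
      Finset.card_sdiff_of_subset (Finset.filter_subset_filter _ h3)]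
    omega
  refine ⟨α', H \ H', by simpa [hL] using h5, sdiff_subset_sdiff subset_rfl h4, ?_, ?_,
    fun z hz => ?_, fun x hx y hy hxy => ?_⟩
  · rw [Finset.card_eq_sum_card_fiberwise (f := c) (t := univ) fun _ _ => mem_univ _,
      ← smul_eq_mul]
    exact Finset.sum_le_card_nsmul _ _ _ fun j _ => h7 j
  · intro e he
    rw [Finset.sdiff_sdiff_eq_self h3] at he
    rw [h6 e he, hα.cl e he]
  · refine le_trans (Finset.card_le_card (t := (univ.filter fun v =>
      ω0 v + ∑ e ∈ H' with v ∈ ep e, α e = z) ∪ (H \ H').biUnion ep) fun v hv => ?_)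
      ((Finset.card_union_le _ _).trans (Nat.add_le_add (hα.mult z hz) ?_))
    · by_cases hv' : v ∈ (H \ H').biUnion ep
      · exact mem_union_right _ hv'
      refine mem_union_left _ (mem_filter.2 ⟨mem_univ _, ?_⟩)
      have : (H.filter fun e => v ∈ ep e) = H'.filter fun e => v ∈ ep e := by
        ext e
        simp only [mem_filter]
        refine ⟨fun h => ⟨?_, h.2⟩, fun h => ⟨h3 h.1, h.2⟩⟩
        by_contra h'
        exact hv' (mem_biUnion.2 ⟨e, mem_sdiff.2 ⟨h.1, h'⟩, h.2⟩)
      rw [← (mem_filter.1 hv).2, this,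
        Finset.sum_congr rfl fun e he => h6 e (mem_filter.1 he).1]
    · rw [mul_comm]
      exact Finset.card_biUnion_le_card_mul _ _ _ fun e he => hep e (mem_sdiff.1 he).1
  · simp only [h6 x (h4 hx), h6 y (h4 hy)] at hxy
    exact hα.base x (h4 hx) y (h4 hy) hx hy hxy

end Pool.Agent.Lib.MP_0830d8_co.Ex
end

-- part Pool.Agent.Lib.MP_0830d8_co.Tree
section

/-!
Parent functions of connected graphs, cutting a rooted tree into bounded blocks, cherries.
-/

namespace Pool.Agent.Lib.MP_0830d8_co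

open Finset

variable {V : Type*}

lemma exists_parent {G : SimpleGraph V} (hG : G.Connected) (r : V) :
    ∃ (π : V → V) (d : V → ℕ), ∀ v, v ≠ r → G.Adj v (π v) ∧ d (π v) + 1 = d v := by
  have h : ∀ v, ∃ u, v ≠ r → G.Adj v u ∧ G.dist u r + 1 = G.dist v r := by
    intro v
    by_cases hv : v = r
    · exact ⟨v, fun h => absurd hv h⟩
    obtain ⟨p, hp⟩ := hG.exists_walk_length_eq_dist v r
    cases p with
    | nil => exact absurd rfl hv
    | @cons _ u _ h q =>
      refine ⟨u, fun _ => ⟨h, ?_⟩⟩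
      have h1 := SimpleGraph.dist_le q
      obtain ⟨q', hq'⟩ := hG.exists_walk_length_eq_dist u r
      have h2 := SimpleGraph.dist_le (SimpleGraph.Walk.cons h q')
      simp only [SimpleGraph.Walk.length_cons] at hp h2
      omega
  choose π hπ using h
  exact ⟨π, fun v => G.dist v r, hπ⟩

lemma exists_cherry [Fintype V] {G : SimpleGraph V} (hG : G.Connected) (hn : 3 ≤ Fintype.card V)
    (z : V) : ∃ e ∈ G.edgeSet, ∃ e' ∈ G.edgeSet, z ∈ e ∧ e' ≠ e ∧ ∃ y, y ∈ e ∧ y ∈ e' := by
  classical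
  have : Nontrivial V := Fintype.one_lt_card_iff_nontrivial.mp (by omega)
  obtain ⟨w, hw⟩ := hG.preconnected.exists_adj_of_nontrivial z
  by_contra hc
  push Not at hc
  have key : ∀ a b (p : G.Walk a b), a ∈ s(z, w) → b ∈ s(z, w) := by
    intro a b p
    induction p with
    | nil => exact id
    | @cons a c b h q ih =>
      intro ha
      refine ih ?_
      by_contra hcc
      exact hc s(z, w) hw s(a, c) h (by simp) (fun e => hcc (e ▸ by simp)) a ha (by simp)
  have h1 : (univ : Finset V) ⊆ {z, w} := fun u _ => by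
    obtain ⟨p⟩ := hG z u
    simpa using key _ _ p (by simp)
  have h2 := (card_le_card h1).trans card_le_two
  rw [card_univ] at h2
  omega

lemma exists_cut [Fintype V] [DecidableEq V] (r : V) (π : V → V) (d : V → ℕ)
    (h : ∀ v, v ≠ r → d (π v) + 1 = d v) {C : ℕ} (hC : 0 < C) :
    ∃ Z : Finset V, r ∈ Z ∧ Z.card ≤ 2 * (Fintype.card V / C) + 1 ∧ ∀ Y : Finset V, Z ⊆ Y →
      ∃ top : V → V, (∀ v ∉ Y, π v ∉ Y → top (π v) = top v) ∧
        ∀ t, (Yᶜ.filter (top · = t)).card ≤ (C + 1) ^ C := by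
  obtain ⟨j, hjC, hj⟩ := exists_card_fiber_lt_of_card_lt_mul (s := (univ : Finset V))
    (t := range C) (f := fun v => d v % C) (n := Fintype.card V / C + 1) (by
      rw [card_range, card_univ]; exact Nat.lt_mul_div_succ _ hC)
  rw [mem_range] at hjC
  set Z2 := univ.filter fun v => C ≤ (univ.filter (π · = v)).card with hZ2
  have h2 : Z2.card ≤ Fintype.card V / C := by
    rw [Nat.le_div_iff_mul_le hC]
    calc Z2.card * C ≤ ∑ z ∈ Z2, (univ.filter (π · = z)).card := by
          rw [← smul_eq_mul, ← sum_const]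
          exact sum_le_sum fun z hz => (mem_filter.mp hz).2
      _ = (Z2.biUnion fun z => univ.filter (π · = z)).card := (card_biUnion fun z _ z' _ hzz =>
          disjoint_left.mpr fun v h1 h2 =>
            hzz ((mem_filter.mp h1).2.symm.trans (mem_filter.mp h2).2)).symm
      _ ≤ _ := card_le_univ _
  refine ⟨insert r ((univ.filter fun v => d v % C = j) ∪ Z2), mem_insert_self _ _, ?_,
    fun Y hY => ?_⟩
  · have h3 := card_insert_le r ((univ.filter fun v => d v % C = j) ∪ Z2)
    have h4 := card_union_le (univ.filter fun v => d v % C = j) Z2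
    omega
  have y1 : ∀ v ∉ Y, d (π v) + 1 = d v := fun v hv => h v fun e => hv (hY (e ▸ mem_insert_self _ _))
  have y2 : ∀ v ∉ Y, d v % C ≠ j := fun v hv e => hv (hY (mem_insert_of_mem (mem_union_left _
    (mem_filter.mpr ⟨mem_univ _, e⟩))))
  have y3 : ∀ v ∉ Y, (univ.filter (π · = v)).card ≤ C := fun v hv => by
    by_contra hc
    exact hv (hY (mem_insert_of_mem (mem_union_right _ (mem_filter.mpr ⟨mem_univ _, by omega⟩))))
  set g : V → V := fun v => if π v ∈ Y then v else π v with hg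
  have g1 : ∀ v ∉ Y, g v ∉ Y := fun v hv => by
    simp only [hg]; split_ifs <;> assumption
  have g2 : ∀ k, ∀ v ∉ Y, (d v ≤ k ∨ ∃ m, m % C = j ∧ m ≤ d v ∧ d v ≤ m + k) →
      g (g^[k] v) = g^[k] v := by
    intro k
    induction k with
    | zero =>
      intro v hv h
      have := y1 v hv
      rcases h with h | ⟨m, h1, h2, h3⟩
      · omega
      · exact absurd (by rw [show d v = m by omega, h1]) (y2 v hv)
    | succ k ih =>
      intro v hv h
      have := y1 v hv
      rw [Function.iterate_succ_apply]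
      by_cases hp : π v ∈ Y
      · have e : g v = v := if_pos hp
        rw [e, Function.iterate_fixed e, e]
      · have e : g v = π v := if_neg hp
        rw [e]
        refine ih _ hp ?_
        rcases h with h | ⟨m, h1, h2, h3⟩
        · left; omega
        · have : d v ≠ m := fun e => y2 v hv (by rw [e, h1])
          exact Or.inr ⟨m, h1, by omega, by omega⟩
  have g3 : ∀ k t, (Yᶜ.filter (g^[k] · = t)).card ≤ (C + 1) ^ k := by
    intro k
    induction k with
    | zero => exact fun t => (card_le_card (t := {t}) fun v hv =>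
        mem_singleton.mpr (mem_filter.mp hv).2).trans (by simp)
    | succ k ih =>
      intro t
      by_cases ht : t ∈ Y
      · rw [filter_eq_empty_iff.mpr]
        · simp
        · intro v hv e
          have : ∀ i, g^[i] v ∉ Y := fun i => by
            induction i with
            | zero => exact mem_compl.mp hv
            | succ i ih => rw [Function.iterate_succ_apply']; exact g1 _ ih
          exact this _ (e ▸ ht)
      refine (card_le_card (t := (insert t (univ.filter (π · = t))).biUnion fun u =>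
        Yᶜ.filter (g^[k] · = u)) fun v hv => ?_).trans (card_biUnion_le.trans ?_)
      · obtain ⟨h1, h2⟩ := mem_filter.mp hv
        rw [Function.iterate_succ_apply'] at h2
        refine mem_biUnion.mpr ⟨g^[k] v, ?_, mem_filter.mpr ⟨h1, rfl⟩⟩
        simp only [hg] at h2 ⊢
        split_ifs at h2
        · exact mem_insert.mpr (Or.inl h2)
        · exact mem_insert_of_mem (mem_filter.mpr ⟨mem_univ _, h2⟩)
      · refine (sum_le_card_nsmul _ _ _ fun u _ => ih u).trans ?_
        rw [smul_eq_mul, pow_succ']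
        exact Nat.mul_le_mul_right _ ((card_insert_le _ _).trans (Nat.succ_le_succ (y3 t ht)))
  refine ⟨g^[C], fun v hv hp => ?_, g3 C⟩
  have e : g v = π v := if_neg hp
  rw [← e, ← Function.iterate_succ_apply, Function.iterate_succ_apply']
  refine g2 C v hv ?_
  by_cases hd : d v ≤ C
  · exact Or.inl hd
  · have q1 := Nat.div_add_mod (d v - j) C
    have q2 := Nat.mod_lt (d v - j) hC
    exact Or.inr ⟨C * ((d v - j) / C) + j, by rw [Nat.mul_add_mod, Nat.mod_eq_of_lt hjC],
      by omega, by omega⟩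

end Pool.Agent.Lib.MP_0830d8_co
end
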