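import Mathlib

/-!
Greedy labelling of edge sets: spreading of vertex sums (early edges) and
distinct reserved sums (late edges).
-/

namespace Pool.Agent.Lib.MP_0830d8_co

open Finset

variable {V : Type*} [DecidableEq V]

lemma greedy (Q : Finset (Sym2 V) → (V → ℕ) → Prop) (H0 : Finset (Sym2 V)) (S : Finset ℕ) (t : ℕ)
    (step : ∀ H ⊆ H0, ∀ (a : V → ℕ) (U : Finset ℕ), ∀ e ∈ H, U.card < t → Q H a →
      ∃ x ∈ S, x ∉ U ∧ Q (H.erase e) fun v => a v + if v ∈ e then x else 0) :
    ∀ H ⊆ H0, ∀ (a : V → ℕ) (U : Finset ℕ), U.card + H.card ≤ t → Q H a →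
      ∃ f : Sym2 V → ℕ, Set.InjOn f H ∧ (∀ e ∈ H, f e ∈ S ∧ f e ∉ U) ∧
        Q ∅ fun v => a v + ∑ e ∈ H with v ∈ e, f e := by
  intro H
  induction H using Finset.induction_on with
  | empty => exact fun _ a U _ h => ⟨fun _ => 0, by simp, by simp, by simpa using h⟩
  | insert e H he ih =>
    intro hH a U hc h
    rw [card_insert_of_notMem he] at hc
    obtain ⟨x, hx, hxU, h1⟩ := step _ hH a U e (mem_insert_self _ _) (by omega) h
    rw [erase_insert he] at h1
    obtain ⟨f, f1, f2, f3⟩ := ih ((subset_insert _ _).trans hH) _ (insert x U)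
      (by rw [card_insert_of_notMem hxU]; omega) h1
    have hf : ∀ e' ∈ H, Function.update f e x e' = f e' := fun e' he' =>
      Function.update_of_ne (fun h : e' = e => he (h ▸ he')) _ _
    refine ⟨Function.update f e x, ?_, ?_, ?_⟩
    · intro e1 g1 e2 g2 h12
      rw [mem_coe, mem_insert] at g1 g2
      rcases g1 with g1 | g1 <;> rcases g2 with g2 | g2
      · rw [g1, g2]
      · rw [g1, Function.update_self, hf _ g2] at h12
        exact absurd (h12 ▸ mem_insert_self x U) (f2 _ g2).2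
      · rw [g2, Function.update_self, hf _ g1] at h12
        exact absurd (h12 ▸ mem_insert_self x U) (f2 _ g1).2
      · rw [hf _ g1, hf _ g2] at h12
        exact f1 g1 g2 h12
    · intro e' he'
      rcases mem_insert.mp he' with rfl | he'
      · rw [Function.update_self]; exact ⟨hx, hxU⟩
      · rw [hf _ he']
        exact ⟨(f2 _ he').1, fun h => (f2 _ he').2 (mem_insert_of_mem h)⟩
    · convert f3 using 2 with v
      rw [filter_insert, add_assoc]
      split_ifs with hv
      · rw [sum_insert fun h => he (mem_filter.mp h).1, Function.update_self,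
          sum_congr rfl fun e' he' => hf e' (mem_filter.mp he').1]
      · rw [sum_congr rfl fun e' he' => hf e' (mem_filter.mp he').1, zero_add]

lemma exists_notMem_of_card_lt {S B : Finset ℕ} (h : B.card < S.card) : ∃ x ∈ S, x ∉ B := by
  by_contra hc
  push Not at hc
  exact absurd (card_le_card hc) (not_le.mpr h)

/-- early edges: no vertex sum is repeated too often -/
lemma early [Fintype V] (H0 : Finset (Sym2 V)) {μ : ℕ} (hμ : 0 < μ) :
    ∃ f : Sym2 V → ℕ, Set.InjOn f H0 ∧
      (∀ e ∈ H0, f e ∈ Icc 1 (H0.card + 2 * (Fintype.card V / μ))) ∧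
      ∀ z, (univ.filter fun v => (∃ e ∈ H0, v ∈ e) ∧ ∑ e ∈ H0 with v ∈ e, f e = z).card ≤ μ + 1 := by
  classical
  obtain ⟨f, f1, f2, f3⟩ := greedy (fun H a => ∀ z, (univ.filter fun v => (∃ e ∈ H0, v ∈ e) ∧
      (∀ e ∈ H, v ∉ e) ∧ a v = z).card ≤ μ + 1) H0
      (Icc 1 (H0.card + 2 * (Fintype.card V / μ))) H0.card (by
    intro H hH a U e he hU hQ
    set F : ℕ → Finset V := fun z => univ.filter fun v => (∃ e ∈ H0, v ∈ e) ∧
      (∀ e ∈ H, v ∉ e) ∧ a v = z with hF
    set Sat := (univ.image a).filter fun z => μ ≤ (F z).card with hSat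
    have hS : Sat.card ≤ Fintype.card V / μ := by
      rw [Nat.le_div_iff_mul_le hμ]
      calc Sat.card * μ ≤ ∑ z ∈ Sat, (F z).card := by
            rw [← smul_eq_mul, ← sum_const]
            exact sum_le_sum fun z hz => (mem_filter.mp hz).2
        _ = (Sat.biUnion F).card := (card_biUnion fun z _ z' _ hzz => disjoint_left.mpr
            fun v h1 h2 => hzz ((mem_filter.mp h1).2.2.2.symm.trans (mem_filter.mp h2).2.2.2)).symm
        _ ≤ _ := card_le_univ _
    induction e using Sym2.ind with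
    | _ u v =>
    obtain ⟨x, hx, hxB⟩ := exists_notMem_of_card_lt
      (S := Icc 1 (H0.card + 2 * (Fintype.card V / μ)))
      (B := U ∪ (Sat.image (· - a u) ∪ Sat.image (· - a v))) (by
        have h1 := card_union_le U (Sat.image (· - a u) ∪ Sat.image (· - a v))
        have h2 := card_union_le (Sat.image (· - a u)) (Sat.image (· - a v))
        have h3 := card_image_le (s := Sat) (f := (· - a u))
        have h4 := card_image_le (s := Sat) (f := (· - a v))
        rw [Nat.card_Icc]; omega)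
    simp only [mem_union, not_or] at hxB
    refine ⟨x, hx, hxB.1, fun z => ?_⟩
    by_cases hz : μ ≤ (F z).card
    · refine le_trans (card_le_card fun p hp => ?_) (hQ z)
      rw [mem_filter] at hp ⊢
      obtain ⟨-, h1, h2, h3⟩ := hp
      beta_reduce at h3
      have hz' : z ∈ Sat := by
        obtain ⟨y, hy⟩ := card_pos.mp (lt_of_lt_of_le hμ hz)
        exact mem_filter.mpr ⟨mem_image.mpr ⟨y, mem_univ _, (mem_filter.mp hy).2.2.2⟩, hz⟩
      by_cases hp : p ∈ s(u, v)
      · exfalso
        rw [if_pos hp] at h3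
        rcases Sym2.mem_iff.mp hp with rfl | rfl
        · exact hxB.2.1 (mem_image.mpr ⟨z, hz', by omega⟩)
        · exact hxB.2.2 (mem_image.mpr ⟨z, hz', by omega⟩)
      · rw [if_neg hp] at h3
        refine ⟨mem_univ _, h1, fun e he => ?_, h3⟩
        by_cases h4 : e = s(u, v)
        · rwa [h4]
        · exact h2 e (mem_erase.mpr ⟨h4, he⟩)
    · refine le_trans (card_le_card (t := insert u (insert v (F z))) fun p hp => ?_) ?_
      · rw [mem_filter] at hp
        obtain ⟨-, h1, h2, h3⟩ := hp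
        beta_reduce at h3
        by_cases hp : p ∈ s(u, v)
        · rcases Sym2.mem_iff.mp hp with rfl | rfl <;> simp
        · rw [if_neg hp] at h3
          refine mem_insert_of_mem (mem_insert_of_mem (mem_filter.mpr
            ⟨mem_univ _, h1, fun e he => ?_, h3⟩))
          by_cases h4 : e = s(u, v)
          · rwa [h4]
          · exact h2 e (mem_erase.mpr ⟨h4, he⟩)
      · have h1 := card_insert_le u (insert v (F z))
        have h2 := card_insert_le v (F z)
        omega) H0 Subset.rfl (fun _ => 0) ∅ (by simp) (fun z => by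
      rw [filter_eq_empty_iff.mpr]
      · simp
      · rintro v - ⟨⟨e, h1, h2⟩, h3, -⟩
        exact h3 e h1 h2)
  exact ⟨f, f1, fun e he => (f2 e he).1, fun z => by simpa using f3 z⟩

/-- reserved sums -/
def Res (g z : ℕ) : Prop := g ∣ z ∨ (g + 1) ∣ z

lemma exists_res {g : ℕ} (hg : 0 < g) (r a a' J : ℕ) (B : Finset ℕ) (hB : B.card < J) :
    ∃ x ∈ Ioc r (r + J * (g * (g + 1))), x ∉ B ∧ Res g (a + x) ∧ Res g (a' + x) := by
  have hco : Nat.Coprime g (g + 1) := by simp
  obtain ⟨y, hy1, hy2⟩ := Nat.chineseRemainder hco ((a + r + 1) * (g - 1)) ((a' + r + 1) * g)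
  have hq : 0 < g * (g + 1) := by positivity
  set y0 := y % (g * (g + 1)) with hy0
  have h0 : y0 < g * (g + 1) := Nat.mod_lt _ hq
  have m1 : y0 ≡ y [MOD g] := (Nat.mod_modEq _ _).of_mul_right _
  have m2 : y0 ≡ y [MOD g + 1] := (Nat.mod_modEq _ _).of_mul_left _
  obtain ⟨x, hx, hxB⟩ := exists_notMem_of_card_lt
    (S := (range J).image fun j => r + 1 + y0 + j * (g * (g + 1))) (B := B) (by
      rw [card_image_of_injective _ fun i j h => Nat.eq_of_mul_eq_mul_right hq (by omega),
        card_range]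
      exact hB)
  obtain ⟨j, hj, rfl⟩ := mem_image.mp hx
  rw [mem_range] at hj
  refine ⟨_, mem_Ioc.mpr ⟨by omega, ?_⟩, hxB, Or.inl ?_, Or.inr ?_⟩
  · have : (j + 1) * (g * (g + 1)) ≤ J * (g * (g + 1)) := Nat.mul_le_mul_right _ hj
    rw [add_mul] at this
    omega
  · rw [show a + (r + 1 + y0 + j * (g * (g + 1))) = (a + r + 1 + y0) + g * (j * (g + 1)) by ring]
    refine dvd_add ?_ (dvd_mul_right _ _)
    rw [← Nat.modEq_zero_iff_dvd]
    refine ((m1.trans hy1).add_left (a + r + 1)).trans ?_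
    rw [Nat.modEq_zero_iff_dvd, ← mul_one_add, show 1 + (g - 1) = g by omega]
    exact dvd_mul_left _ _
  · rw [show a' + (r + 1 + y0 + j * (g * (g + 1))) = (a' + r + 1 + y0) + (g + 1) * (j * g) by ring]
    refine dvd_add ?_ (dvd_mul_right _ _)
    rw [← Nat.modEq_zero_iff_dvd]
    refine ((m2.trans hy2).add_left (a' + r + 1)).trans ?_
    rw [Nat.modEq_zero_iff_dvd, ← mul_one_add, add_comm 1]
    exact dvd_mul_left _ _

/-- late edges: the endpoints receive distinct reserved sums -/
lemma late (H0 : Finset (Sym2 V)) (Lt : Finset V) {g : ℕ} (hg : 0 < g) (r J : ℕ)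
    (hJ : H0.card + 2 * Lt.card ≤ J)
    (h1 : ∀ p ∈ Lt, ∃ e ∈ H0, p ∈ e)
    (h2 : ∀ e ∈ H0, ∃ e' ∈ H0, e' ≠ e ∧ ∃ z, z ∈ e ∧ z ∈ e') (a : V → ℕ) :
    ∃ f : Sym2 V → ℕ, Set.InjOn f H0 ∧ (∀ e ∈ H0, f e ∈ Ioc r (r + J * (g * (g + 1)))) ∧
      (∀ p ∈ Lt, Res g (a p + ∑ e ∈ H0 with p ∈ e, f e) ∧ r < a p + ∑ e ∈ H0 with p ∈ e, f e) ∧
      Set.InjOn (fun p => a p + ∑ e ∈ H0 with p ∈ e, f e) Lt := by
  obtain ⟨f, f1, f2, f3, f4⟩ := greedy (fun H a => (∀ p ∈ Lt, (∀ e ∈ H, p ∉ e) →
      Res g (a p) ∧ r < a p) ∧ ∀ p ∈ Lt, ∀ q ∈ Lt, p ≠ q →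
        (∀ e ∈ H, (p ∈ e ∨ q ∈ e) → e = s(p, q)) → a p ≠ a q) H0
      (Ioc r (r + J * (g * (g + 1)))) H0.card (by
    intro H hH a U e he hU hQ
    induction e using Sym2.ind with
    | _ u v =>
    obtain ⟨x, hx, hxB, r1, r2⟩ := exists_res hg r (a u) (a v) J
      (U ∪ (Lt.image (a · - a u) ∪ Lt.image (a · - a v))) (by
        have h1 := card_union_le U (Lt.image (a · - a u) ∪ Lt.image (a · - a v))
        have h2 := card_union_le (Lt.image (a · - a u)) (Lt.image (a · - a v))
        have h3 := card_image_le (s := Lt) (f := (a · - a u))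
        have h4 := card_image_le (s := Lt) (f := (a · - a v))
        omega)
    simp only [mem_union, not_or] at hxB
    have hx1 := (mem_Ioc.mp hx).1
    have key : ∀ p ∈ s(u, v), ∀ q ∈ Lt, a p + x ≠ a q := by
      intro p hp q hq h
      rcases Sym2.mem_iff.mp hp with rfl | rfl
      · exact hxB.2.1 (mem_image.mpr ⟨q, hq, by omega⟩)
      · exact hxB.2.2 (mem_image.mpr ⟨q, hq, by omega⟩)
    refine ⟨x, hx, hxB.1, fun p hp h => ?_, fun p hp q hq hpq h => ?_⟩
    · by_cases hp' : p ∈ s(u, v)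
      · simp only [if_pos hp']
        refine ⟨?_, by omega⟩
        rcases Sym2.mem_iff.mp hp' with rfl | rfl
        exacts [r1, r2]
      · simp only [if_neg hp', add_zero]
        refine hQ.1 p hp fun e he => ?_
        by_cases h4 : e = s(u, v)
        · rwa [h4]
        · exact h e (mem_erase.mpr ⟨h4, he⟩)
    · by_cases hp' : p ∈ s(u, v) <;> by_cases hq' : q ∈ s(u, v)
      · simp only [if_pos hp', if_pos hq', ne_eq, add_left_inj]
        have h5 : s(u, v) = s(p, q) := (Sym2.mem_and_mem_iff hpq).mp ⟨hp', hq'⟩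
        refine hQ.2 p hp q hq hpq fun e he h6 => ?_
        by_cases h4 : e = s(u, v)
        · rwa [h4]
        · exact h e (mem_erase.mpr ⟨h4, he⟩) h6
      · simp only [if_pos hp', if_neg hq', add_zero]
        exact key p hp' q hq
      · simp only [if_neg hp', if_pos hq', add_zero]
        exact (key q hq' p hp).symm
      · simp only [if_neg hp', if_neg hq', add_zero]
        refine hQ.2 p hp q hq hpq fun e he h6 => ?_
        by_cases h4 : e = s(u, v)
        · rw [h4] at h6; tauto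
        · exact h e (mem_erase.mpr ⟨h4, he⟩) h6) H0 Subset.rfl a ∅ (by simp) ⟨fun p hp h => by
      obtain ⟨e, he, hpe⟩ := h1 p hp
      exact absurd hpe (h e he), fun p hp q hq hpq h => by
      obtain ⟨e, he, hpe⟩ := h1 p hp
      obtain ⟨e', he', hne, z, z1, z2⟩ := h2 e he
      have e1 := h e he (Or.inl hpe)
      rw [e1] at z1
      refine absurd ((h e' he' ?_).trans e1.symm) hne
      rcases Sym2.mem_iff.mp z1 with rfl | rfl
      exacts [Or.inl z2, Or.inr z2]⟩
  refine ⟨f, f1, fun e he => (f2 e he).1, fun p hp => f3 p hp (by simp), fun p hp q hq h => ?_⟩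
  by_contra hpq
  exact f4 p hp q hq hpq (by simp) h

lemma card_dvd_le {g : ℕ} (hg : 0 < g) (a r b : ℕ) :
    ((Ioc r (r + b)).filter fun x => g ∣ a + x).card ≤ b / g + 1 := by
  rw [← card_range (b / g + 1)]
  refine card_le_card_of_injOn (fun x => (x - (r + 1)) / g) (fun x hx => ?_) fun x hx y hy h => ?_
  · have := mem_Ioc.mp (mem_filter.mp hx).1
    rw [mem_coe, mem_range, Nat.lt_succ_iff]
    exact Nat.div_le_div_right (by omega)
  · obtain ⟨h1, c, hc⟩ := mem_filter.mp hx
    obtain ⟨h2, d, hd⟩ := mem_filter.mp hy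
    rw [mem_Ioc] at h1 h2
    simp only at h
    have q1 := Nat.div_add_mod (x - (r + 1)) g
    have q2 := Nat.div_add_mod (y - (r + 1)) g
    have q3 := Nat.mod_lt (x - (r + 1)) hg
    have q4 := Nat.mod_lt (y - (r + 1)) hg
    rw [h] at q1
    rcases lt_trichotomy c d with h3 | h3 | h3
    · have : g * (c + 1) ≤ g * d := Nat.mul_le_mul_left _ h3
      rw [mul_add] at this; omega
    · subst h3; omega
    · have : g * (d + 1) ≤ g * c := Nat.mul_le_mul_left _ h3
      rw [mul_add] at this; omega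

lemma exists_xi {g : ℕ} (hg : 0 < g) (r b β : ℕ) (h : β + 2 * (b / g + 1) ≤ b) :
    ∃ ξ : ℕ → Fin β → ℕ, (∀ a, Function.Injective (ξ a)) ∧
      ∀ a j, ξ a j ∈ Ioc r (r + b) ∧ ¬Res g (a + ξ a j) := by
  classical
  have h1 : ∀ a, β ≤ ((Ioc r (r + b)).filter fun x => ¬Res g (a + x)).card := by
    intro a
    have h2 := card_filter_add_card_filter_not (s := Ioc r (r + b)) fun x => Res g (a + x)
    have h3 : ((Ioc r (r + b)).filter fun x => Res g (a + x)).card ≤ b / g + 1 + (b / g + 1) := by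
      refine (card_le_card (t := ((Ioc r (r + b)).filter fun x => g ∣ a + x) ∪
        (Ioc r (r + b)).filter fun x => g + 1 ∣ a + x) fun x hx => by
          rw [← filter_or]; exact mem_filter.mpr (mem_filter.mp hx)).trans ?_
      refine (card_union_le _ _).trans (add_le_add (card_dvd_le hg a r b)
        ((card_dvd_le (by omega) a r b).trans ?_))
      exact Nat.succ_le_succ (Nat.div_le_div_left (Nat.le_succ g) hg)
    rw [Nat.card_Ioc] at h2
    omega
  have h2 : ∀ a, ∃ φ : Fin β → ℕ, Function.Injective φ ∧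
      ∀ j, φ j ∈ Ioc r (r + b) ∧ ¬Res g (a + φ j) := by
    intro a
    refine ⟨fun j => ((Ioc r (r + b)).filter fun x => ¬Res g (a + x)).orderEmbOfCardLe (h1 a) j,
      (orderEmbOfCardLe _ _).injective, fun j => mem_filter.mp (orderEmbOfCardLe_mem _ (h1 a) j)⟩
  choose ξ h3 h4 using h2
  exact ⟨ξ, h3, h4⟩

end Pool.Agent.Lib.MP_0830d8_co
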