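import Pool.Agent.Lib.MP_0830d8_co.Blocks
import Pool.Agent.Lib.MP_0830d8_co.Greedy
import Pool.Agent.Lib.MP_0830d8_co.Tree

/-!
Assembling early, block and late labels.
-/

namespace Pool.Agent.Lib.MP_0830d8_co

open Finset

lemma sum_nbr {V : Type*} [Fintype V] [DecidableEq V] (G : SimpleGraph V) [DecidableRel G.Adj]
    (f : Sym2 V → ℕ) (v : V) :
    ∑ w ∈ G.neighborFinset v, f s(v, w) = ∑ e ∈ G.edgeFinset with v ∈ e, f e := by
  refine sum_bij (fun w _ => s(v, w)) (fun w hw => ?_) (fun a _ b _ h => ?_) (fun e he => ?_)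
    fun _ _ => rfl
  · simpa using hw
  · exact Sym2.congr_right.mp h
  · obtain ⟨h1, h2⟩ := mem_filter.mp he
    obtain ⟨w, rfl⟩ := Sym2.mem_iff_exists.mp h2
    exact ⟨w, by simpa using h1, rfl⟩

lemma card_verts {V : Type*} [Fintype V] [DecidableEq V] (H : Finset (Sym2 V)) :
    (univ.filter fun v => ∃ e ∈ H, v ∈ e).card ≤ 2 * H.card := by
  refine (card_le_card (t := H.biUnion Sym2.toFinset) fun v hv => ?_).trans
    (card_biUnion_le.trans ?_)
  · obtain ⟨e, h1, h2⟩ := (mem_filter.mp hv).2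
    exact mem_biUnion.mpr ⟨e, h1, Sym2.mem_toFinset.mpr h2⟩
  · rw [mul_comm]
    refine sum_le_card_nsmul _ _ _ fun e _ => ?_
    rw [Sym2.card_toFinset]
    split_ifs <;> omega

lemma core {g C : ℕ} (hg : 5 ≤ g) (hC : 0 < C) {ε : ℝ} (hε : 0 < ε) : ∃ γ : ℝ, 0 < γ ∧
    ∀ (V : Type) [Fintype V] [DecidableEq V] (G : SimpleGraph V) [DecidableRel G.Adj],
      G.Connected → 3 ≤ Fintype.card V → ∀ μ u : ℕ, 0 < μ →
      (((C + 1) ^ C : ℕ) + (μ + 1 : ℕ) : ℝ) ≤ γ * (Fintype.card V / g + 1 : ℕ) →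
      ε * Fintype.card V ≤ u →
      ∃ f : Sym2 V → ℕ, Set.InjOn f G.edgeFinset ∧ (∀ e ∈ G.edgeFinset, f e ∈ Icc 1
        (G.edgeFinset.card + (2 * (Fintype.card V / μ) + 9 * (Fintype.card V / g + 1) +
          (10 * (2 * (Fintype.card V / C) + 1) + 3 * u) * (g * (g + 1))))) ∧
        Function.Injective fun v => ∑ e ∈ G.edgeFinset with v ∈ e, f e := by
  obtain ⟨γ, hγ, HB⟩ := exists_blocks ((C + 1) ^ C) hε
  refine ⟨γ, hγ, fun V _ _ G _ hG hn μ u hμ hγs hu => ?_⟩
  set n := Fintype.card V with hn'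
  set s := n / g + 1 with hs
  have hs0 : 0 < s := Nat.succ_pos _
  have hs1 : n < g * s := Nat.lt_mul_div_succ n (show 0 < g by omega)
  clear_value s
  set E := G.edgeFinset with hE
  obtain ⟨r⟩ := hG.nonempty
  obtain ⟨π, d, hπ⟩ := exists_parent hG r
  obtain ⟨Z, hrZ, hZ, hcut⟩ := exists_cut r π d (fun v hv => (hπ v hv).2) hC
  rw [← hn'] at hZ
  choose e1 he1 e2 he2 hz1 hne hsh using exists_cherry hG hn
  set Ch := Z.image e1 ∪ Z.image e2 with hCh
  set Y := univ.filter fun v => ∃ e ∈ Ch, v ∈ e with hY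
  have hChE : Ch ⊆ E := union_subset
    (image_subset_iff.mpr fun z _ => SimpleGraph.mem_edgeFinset.mpr (he1 z))
    (image_subset_iff.mpr fun z _ => SimpleGraph.mem_edgeFinset.mpr (he2 z))
  have hChc : Ch.card ≤ 2 * Z.card := by
    have h1 : Ch.card ≤ _ := card_union_le (Z.image e1) (Z.image e2)
    have h2 := card_image_le (s := Z) (f := e1)
    have h3 := card_image_le (s := Z) (f := e2)
    omega
  have hYc : Y.card ≤ 2 * Ch.card := card_verts Ch
  have hYm : ∀ {v e}, e ∈ Ch → v ∈ e → v ∈ Y := fun h1 h2 =>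
    mem_filter.mpr ⟨mem_univ _, _, h1, h2⟩
  have hZY : Z ⊆ Y := fun z hz => hYm (mem_union_left _ (mem_image_of_mem _ hz)) (hz1 z)
  obtain ⟨top, ht1, ht2⟩ := hcut Y hZY
  have hπ' : ∀ v ∉ Y, G.Adj v (π v) ∧ d (π v) + 1 = d v := fun v hv =>
    hπ v fun e => hv (hZY (e ▸ hrZ))
  set fe : V → Sym2 V := fun v => s(v, π v) with hfe
  have fmem : ∀ {p v}, p ∈ fe v ↔ p = v ∨ p = π v := Sym2.mem_iff
  have fE : ∀ v ∉ Y, fe v ∈ E := fun v hv => SimpleGraph.mem_edgeFinset.mpr (hπ' v hv).1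
  have fCh : ∀ v ∉ Y, fe v ∉ Ch := fun v hv h => hv (hYm h (fmem.mpr (Or.inl rfl)))
  have finj : ∀ v ∉ Y, ∀ w ∉ Y, fe v = fe w → v = w := by
    intro v hv w hw h
    rcases Sym2.eq_iff.mp h with h | ⟨h1, h2⟩
    · exact h.1
    · have a1 := (hπ' v hv).2
      have a2 := (hπ' w hw).2
      rw [h2] at a1; rw [← h1] at a2; omega
  set W := univ.filter fun v => v ∉ Y ∧ G.degree v ≠ 1 with hW
  have WY : ∀ {v}, v ∈ W → v ∉ Y := fun h => (mem_filter.mp h).2.1
  have Wπ : ∀ v ∉ Y, π v ∉ Y → π v ∈ W := by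
    intro v hv hp
    refine mem_filter.mpr ⟨mem_univ _, hp, fun h => ?_⟩
    obtain ⟨w, -, hw⟩ := SimpleGraph.degree_eq_one_iff_existsUnique_adj.mp h
    have a1 := (hπ' v hv).2
    have a2 := (hπ' _ hp).2
    rw [(hw _ (hπ' _ hp).1).trans (hw v (hπ' v hv).1.symm).symm] at a2
    omega
  set He := E \ (Ch ∪ W.image fe) with hHe
  obtain ⟨f0, a1, a2, a3⟩ := early He hμ
  set l0 := He.card + 2 * (n / μ) with hl0
  set ω : V → ℕ := fun v => ∑ e ∈ He with v ∈ e, f0 e with hω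
  have hWn : W.card ≤ n := card_le_univ _
  obtain ⟨ξ, x1, x2⟩ := exists_xi (g := g) (by omega) l0 (W.card + 9 * s) (W.card + s) (by
    have h1 : (W.card + 9 * s) / g < 3 * s + 1 := by
      rw [Nat.div_lt_iff_lt_mul (by omega)]
      nlinarith
    omega)
  obtain ⟨Cov, hCW, x, b1, b2, b3, b4, b5⟩ := HB V (W.card + s) (μ + 1) W π top d ω ξ
    (fun v hv => (hπ' v (WY hv)).2) x1 (fun v hv hp => ht1 v (WY hv) (WY hp))
    (fun t => (card_le_card (filter_subset_filter _ fun v hv => mem_compl.mpr (WY hv))).trans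
      (ht2 t)) (by omega) (by omega)
    (hγs.trans (mul_le_mul_of_nonneg_left (by exact_mod_cast Nat.le_add_left _ _) hγ.le)) (by
      intro z
      refine le_trans (card_le_card fun v hv => ?_) (a3 z)
      obtain ⟨h1, h2, h3⟩ := mem_filter.mp hv
      refine mem_filter.mpr ⟨mem_univ _, ?_, h3⟩
      have h4 : ∃ w, G.Adj v w ∧ w ≠ π v := by
        by_contra hc
        push Not at hc
        exact (mem_filter.mp h1).2.2 (SimpleGraph.degree_eq_one_iff_existsUnique_adj.mpr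
          ⟨π v, (hπ' v (WY h1)).1, hc⟩)
      obtain ⟨w, h5, h6⟩ := h4
      refine ⟨s(v, w), mem_sdiff.mpr ⟨SimpleGraph.mem_edgeFinset.mpr h5, fun h => ?_⟩, by simp⟩
      rcases mem_union.mp h with h | h
      · exact WY h1 (hYm h (by simp))
      · obtain ⟨c, hc, h7⟩ := mem_image.mp h
        rcases Sym2.eq_iff.mp h7 with ⟨h8, h9⟩ | ⟨h8, h9⟩
        · exact h6 (by rw [← h9, h8])
        · exact h2 c hc h9)
  have hunc : (W \ Cov).card ≤ u := by
    have : ((W \ Cov).card : ℝ) ≤ u :=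
      b2.trans ((mul_le_mul_of_nonneg_left (by exact_mod_cast hWn) hε.le).trans hu)
    exact_mod_cast this
  have CY : ∀ {v}, v ∈ Cov → v ∉ Y := fun h => WY (hCW h)
  set Hb := Cov.image fe with hHb
  set Hl := Ch ∪ (W \ Cov).image fe with hHl
  obtain ⟨xe, hxe⟩ : ∃ xe : Sym2 V → ℕ, ∀ v ∈ Cov, xe (fe v) = x v := by
    classical
    refine ⟨fun e => if h : ∃ v ∈ Cov, fe v = e then x h.choose else 0, fun v hv => ?_⟩
    have h : ∃ w ∈ Cov, fe w = fe v := ⟨v, hv, rfl⟩
    simp only [dif_pos h]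
    rw [finj _ (CY h.choose_spec.1) _ (CY hv) h.choose_spec.2]
  obtain ⟨fl, c1, c2, c3, c4⟩ := late Hl (Y ∪ (W \ Cov)) (g := g) (by omega)
    (l0 + (W.card + 9 * s)) (10 * (2 * (n / C) + 1) + 3 * u) (by
      have h1 : Hl.card ≤ _ := card_union_le Ch ((W \ Cov).image fe)
      have h2 := card_image_le (s := W \ Cov) (f := fe)
      have h3 := card_union_le Y (W \ Cov)
      omega) (by
      intro p hp
      rcases mem_union.mp hp with hp | hp
      · obtain ⟨e, h1, h2⟩ := (mem_filter.mp hp).2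
        exact ⟨e, mem_union_left _ h1, h2⟩
      · exact ⟨fe p, mem_union_right _ (mem_image_of_mem _ hp), fmem.mpr (Or.inl rfl)⟩) (by
      intro e he
      rcases mem_union.mp he with he | he
      · rcases mem_union.mp he with he | he
        · obtain ⟨z, hz, rfl⟩ := mem_image.mp he
          exact ⟨e2 z, mem_union_left _ (mem_union_right _ (mem_image_of_mem _ hz)), hne z, hsh z⟩
        · obtain ⟨z, hz, rfl⟩ := mem_image.mp he
          obtain ⟨y, y1, y2⟩ := hsh z
          exact ⟨e1 z, mem_union_left _ (mem_union_left _ (mem_image_of_mem _ hz)), (hne z).symm,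
            y, y2, y1⟩
      · obtain ⟨v, hv, rfl⟩ := mem_image.mp he
        obtain ⟨h1, h2⟩ := mem_sdiff.mp hv
        by_cases hp : π v ∈ Y
        · obtain ⟨e, h3, h4⟩ := (mem_filter.mp hp).2
          exact ⟨e, mem_union_left _ h3, fun h => fCh v (WY h1) (h ▸ h3), π v,
            fmem.mpr (Or.inr rfl), h4⟩
        · have h3 := Wπ v (WY h1) hp
          refine ⟨fe (π v), mem_union_right _ (mem_image_of_mem _ (mem_sdiff.mpr
            ⟨h3, fun h => h2 ((b1 v h1 h3).mpr h)⟩)), fun h => (hπ' v (WY h1)).1.ne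
            (finj _ hp _ (WY h1) h).symm, π v, fmem.mpr (Or.inr rfl), fmem.mpr (Or.inl rfl)⟩)
    fun v => ω v + ∑ e ∈ Hb with v ∈ e, xe e
  have hbl : Disjoint Hb Hl := by
    refine disjoint_left.mpr fun e h1 h2 => ?_
    obtain ⟨v, hv, rfl⟩ := mem_image.mp h1
    rcases mem_union.mp h2 with h2 | h2
    · exact fCh v (CY hv) h2
    · obtain ⟨w, hw, h3⟩ := mem_image.mp h2
      rw [mem_sdiff] at hw
      exact hw.2 (finj _ (WY hw.1) _ (CY hv) h3 ▸ hv)
  have hun : Hb ∪ Hl = Ch ∪ W.image fe := by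
    rw [hHb, hHl, union_left_comm, ← image_union, union_sdiff_of_subset hCW]
  have hsub : Ch ∪ W.image fe ⊆ E := union_subset hChE (image_subset_iff.mpr fun v hv =>
    fE v (WY hv))
  have hdis : Disjoint He (Hb ∪ Hl) := hun ▸ sdiff_disjoint
  have hEeq : E = He ∪ (Hb ∪ Hl) := by rw [hun, hHe, sdiff_union_of_subset hsub]
  set f : Sym2 V → ℕ := fun e => if e ∈ He then f0 e else if e ∈ Hb then xe e else fl e with hf
  have p1 : ∀ e ∈ He, f e = f0 e := fun e he => if_pos he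
  have p2 : ∀ e ∈ Hb, f e = xe e := fun e he =>
    (if_neg (disjoint_right.mp hdis (mem_union_left _ he))).trans (if_pos he)
  have p3 : ∀ e ∈ Hl, f e = fl e := fun e he =>
    (if_neg (disjoint_right.mp hdis (mem_union_right _ he))).trans
      (if_neg (disjoint_right.mp hbl he))
  have r1 : ∀ e ∈ He, 1 ≤ f e ∧ f e ≤ l0 := fun e he => p1 e he ▸ mem_Icc.mp (a2 e he)
  have rx : ∀ v ∈ Cov, l0 < x v ∧ x v ≤ l0 + (W.card + 9 * s) := fun v hv => by
    obtain ⟨j, hj⟩ := b5 v hv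
    exact hj ▸ mem_Ioc.mp (x2 _ j).1
  have r2 : ∀ e ∈ Hb, l0 < f e ∧ f e ≤ l0 + (W.card + 9 * s) := fun e he => by
    rw [p2 e he]
    obtain ⟨v, hv, rfl⟩ := mem_image.mp he
    exact hxe v hv ▸ rx v hv
  have r3 : ∀ e ∈ Hl, l0 + (W.card + 9 * s) < f e ∧ f e ≤ l0 + (W.card + 9 * s) +
      (10 * (2 * (n / C) + 1) + 3 * u) * (g * (g + 1)) := fun e he =>
    p3 e he ▸ mem_Ioc.mp (c2 e he)
  have hcases : ∀ {e}, e ∈ E → e ∈ He ∨ e ∈ Hb ∨ e ∈ Hl := fun h => by
    rwa [hEeq, mem_union, mem_union] at h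
  have hsum : ∀ v, ∑ e ∈ E with v ∈ e, f e =
      ω v + ∑ e ∈ Hb with v ∈ e, xe e + ∑ e ∈ Hl with v ∈ e, fl e := by
    intro v
    rw [hEeq, filter_union, filter_union, sum_union, sum_union, add_assoc,
      sum_congr rfl fun e he => p1 e (mem_filter.mp he).1,
      sum_congr rfl fun e he => p2 e (mem_filter.mp he).1,
      sum_congr rfl fun e he => p3 e (mem_filter.mp he).1]
    · exact disjoint_filter_filter hbl
    · rw [← filter_union]; exact disjoint_filter_filter hdis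
  have sC : ∀ v ∈ Cov, ∑ e ∈ E with v ∈ e, f e = ω v + ∑ c ∈ W with π c = v, x c + x v := by
    intro v hv
    have h1 : Hl.filter (v ∈ ·) = ∅ := by
      refine filter_eq_empty_iff.mpr fun e he h => ?_
      rcases mem_union.mp he with he | he
      · exact CY hv (hYm he h)
      · obtain ⟨c, hc, rfl⟩ := mem_image.mp he
        rw [mem_sdiff] at hc
        rcases fmem.mp h with rfl | rfl
        · exact hc.2 hv
        · exact hc.2 ((b1 c hc.1 (hCW hv)).mpr hv)
    have h2 : Cov.filter (v ∈ fe ·) = insert v (W.filter (π · = v)) := by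
      ext c
      simp only [mem_filter, mem_insert, fmem]
      constructor
      · rintro ⟨h3, h4 | h4⟩
        exacts [Or.inl h4.symm, Or.inr ⟨hCW h3, h4.symm⟩]
      · rintro (rfl | ⟨h3, rfl⟩)
        exacts [⟨hv, Or.inl rfl⟩, ⟨(b1 c h3 (hCW hv)).mpr hv, Or.inr rfl⟩]
    rw [hsum, h1, sum_empty, add_zero, hHb, filter_image, sum_image fun a ha b hb h =>
      finj _ (CY (mem_filter.mp ha).1) _ (CY (mem_filter.mp hb).1) h,
      sum_congr rfl fun c hc => hxe c (mem_filter.mp hc).1, h2,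
      sum_insert fun h => (hπ' v (CY hv)).1.ne (mem_filter.mp h).2.symm]
    ring
  have sC' : ∀ v ∈ Cov, ¬Res g (∑ e ∈ E with v ∈ e, f e) ∧ l0 < ∑ e ∈ E with v ∈ e, f e := by
    intro v hv
    rw [sC v hv]
    obtain ⟨j, hj⟩ := b5 v hv
    have := rx v hv
    exact ⟨hj ▸ (x2 _ j).2, by omega⟩
  have sL : ∀ v ∈ Y ∪ (W \ Cov), Res g (∑ e ∈ E with v ∈ e, f e) ∧
      l0 < ∑ e ∈ E with v ∈ e, f e := by
    intro v hv
    rw [hsum]
    exact ⟨(c3 v hv).1, lt_of_le_of_lt (Nat.le_add_right _ _) (c3 v hv).2⟩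
  have sF : ∀ v ∉ Y, v ∉ W → fe v ∈ He ∧ ∑ e ∈ E with v ∈ e, f e = f0 (fe v) := by
    intro v hv hw
    have h1 : fe v ∈ He := mem_sdiff.mpr ⟨fE v hv, fun h => by
      rcases mem_union.mp h with h | h
      · exact fCh v hv h
      · obtain ⟨c, hc, h⟩ := mem_image.mp h
        exact hw (finj _ (WY hc) _ hv h ▸ hc)⟩
    refine ⟨h1, ?_⟩
    have h2 : G.degree v = 1 := by
      by_contra h
      exact hw (mem_filter.mpr ⟨mem_univ _, hv, h⟩)
    obtain ⟨w, -, hw⟩ := SimpleGraph.degree_eq_one_iff_existsUnique_adj.mp h2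
    rw [← p1 _ h1, ← sum_singleton f]
    congr 1
    ext e
    rw [mem_filter, mem_singleton]
    constructor
    · rintro ⟨h3, h4⟩
      obtain ⟨y, rfl⟩ := Sym2.mem_iff_exists.mp h4
      rw [(hw y (SimpleGraph.mem_edgeFinset.mp h3)).trans (hw _ (hπ' v hv).1).symm]
    · rintro rfl
      exact ⟨fE v hv, fmem.mpr (Or.inl rfl)⟩
  have vc : ∀ v, v ∈ Cov ∨ v ∈ Y ∪ (W \ Cov) ∨ (v ∉ Y ∧ v ∉ W) := fun v => by
    simp only [mem_union, mem_sdiff]; tauto
  refine ⟨f, fun e he e' he' h => ?_, fun e he => ?_, fun v w h => ?_⟩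
  · rcases hcases he with h1 | h1 | h1 <;> rcases hcases he' with h2 | h2 | h2
    · exact a1 h1 h2 (by rw [← p1 e h1, ← p1 e' h2, h])
    · have := r1 e h1; have := r2 e' h2; omega
    · have := r1 e h1; have := r3 e' h2; omega
    · have := r2 e h1; have := r1 e' h2; omega
    · rw [p2 e h1, p2 e' h2] at h
      obtain ⟨v, hv, rfl⟩ := mem_image.mp h1
      obtain ⟨w, hw, rfl⟩ := mem_image.mp h2
      rw [hxe v hv, hxe w hw] at h
      rw [b3 hv hw h]
    · have := r2 e h1; have := r3 e' h2; omega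
    · have := r3 e h1; have := r1 e' h2; omega
    · have := r3 e h1; have := r2 e' h2; omega
    · exact c1 h1 h2 (by rw [← p3 e h1, ← p3 e' h2, h])
  · have h0 : He.card + W.card ≤ E.card := by
      rw [← card_image_of_injOn (f := fe) (s := W) fun a ha b hb => finj a (WY ha) b (WY hb),
        ← card_union_of_disjoint (sdiff_disjoint.mono_right subset_union_right)]
      exact card_le_card (union_subset sdiff_subset (subset_union_right.trans hsub))
    rw [mem_Icc]
    rcases hcases he with h1 | h1 | h1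
    · have := r1 e h1; omega
    · have := r2 e h1; omega
    · have := r3 e h1; omega
  · beta_reduce at h
    rcases vc v with h1 | h1 | h1 <;> rcases vc w with h2 | h2 | h2
    · exact b4 h1 h2 (by beta_reduce; rw [← sC v h1, ← sC w h2, h])
    · exact absurd (h ▸ (sL w h2).1) (sC' v h1).1
    · have := (sC' v h1).2
      have := sF w h2.1 h2.2
      have := mem_Icc.mp (a2 _ this.1)
      omega
    · exact absurd (h ▸ (sL v h1).1) (sC' w h2).1
    · exact c4 h1 h2 (by beta_reduce; rw [← hsum v, ← hsum w, h])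
    · have := (sL v h1).2
      have := sF w h2.1 h2.2
      have := mem_Icc.mp (a2 _ this.1)
      omega
    · have := (sC' w h2).2
      have := sF v h1.1 h1.2
      have := mem_Icc.mp (a2 _ this.1)
      omega
    · have := (sL w h2).2
      have := sF v h1.1 h1.2
      have := mem_Icc.mp (a2 _ this.1)
      omega
    · have h3 := sF v h1.1 h1.2
      have h4 := sF w h2.1 h2.2
      exact finj _ h1.1 _ h2.1 (a1 h3.1 h4.1 (by rw [← h3.2, ← h4.2, h]))

end Pool.Agent.Lib.MP_0830d8_co
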